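import Pool.Agent.Helper19.Un.Stmts

set_option autoImplicit false

/-!
# GREEN: Green's formula on complex hyperbolic space of any dimension
(port of Helper78/Pic/Green)
-/

namespace Pool.Agent.Helper19.Un

open MeasureTheory Topology
open scoped ComplexConjugate

variable {m : ℕ}

theorem green_contDiff_hgt {n : WithTop ℕ∞} : ContDiff ℝ n (hgt : Pt m → ℝ) := by
  have h1 : ContDiff ℝ n fun p : Pt m => p.1.re := Complex.reCLM.contDiff.comp contDiff_fst
  have h2 : ContDiff ℝ n fun p : Pt m => ‖p.2‖ ^ 2 := contDiff_snd.norm_sq ℂ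
  exact ((contDiff_const.mul h1).add h2).neg

/-! ## functions supported in compact subsets of the Siegel domain -/

theorem green_continuous_of_SD {F : Type*} [TopologicalSpace F] [Zero F] {f : Pt m → F} {K : Set (Pt m)}
    (hK : IsClosed K) (hKU : K ⊆ SD m) (hf : ContinuousOn f (SD m)) (h0 : ∀ p, p ∉ K → f p = 0) :
    Continuous f := by
  rw [continuous_iff_continuousAt]
  intro p
  by_cases hp : p ∈ SD m
  · exact hf.continuousAt (isOpen_SD.mem_nhds hp)
  · have hpK : p ∈ Kᶜ := fun h => hp (hKU h)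
    have hev : f =ᶠ[𝓝 p] fun _ => 0 := by
      filter_upwards [hK.isOpen_compl.mem_nhds hpK] with q hq
      exact h0 q hq
    exact continuousAt_const.congr hev.symm

theorem green_contDiff_of_SD {F : Type*} [NormedAddCommGroup F] [NormedSpace ℝ F] {n : WithTop ℕ∞}
    {f : Pt m → F} {K : Set (Pt m)}
    (hK : IsClosed K) (hKU : K ⊆ SD m) (hf : ContDiffOn ℝ n f (SD m)) (h0 : ∀ p, p ∉ K → f p = 0) :
    ContDiff ℝ n f := by
  rw [contDiff_iff_contDiffAt]
  intro p
  by_cases hp : p ∈ SD m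
  · exact hf.contDiffAt (isOpen_SD.mem_nhds hp)
  · have hpK : p ∈ Kᶜ := fun h => hp (hKU h)
    have hev : f =ᶠ[𝓝 p] fun _ => 0 := by
      filter_upwards [hK.isOpen_compl.mem_nhds hpK] with q hq
      exact h0 q hq
    exact contDiffAt_const.congr_of_eventuallyEq hev

theorem green_isHaar : (volume : Measure (Pt m)).IsAddHaarMeasure :=
  Measure.prod.instIsAddHaarMeasure _ _

theorem green_integrable_vol {F : Type*} [NormedAddCommGroup F] {f : Pt m → F} {K : Set (Pt m)}
    (hK : IsCompact K) (hf : Continuous f) (h0 : ∀ p, p ∉ K → f p = 0) :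
    Integrable f (volume : Measure (Pt m)) := by
  have := green_isHaar (m := m)
  exact hf.integrable_of_hasCompactSupport (HasCompactSupport.intro hK h0)

theorem green_measurable_weight : Measurable fun p : Pt m => ENNReal.ofReal ((hgt p ^ (m + 2))⁻¹) :=
  ((continuous_hgt.measurable.pow_const (m + 2)).inv).ennreal_ofReal

theorem green_integral_hyp {F : Type*} [NormedAddCommGroup F] [NormedSpace ℝ F] (f : Pt m → F) :
    ∫ p, f p ∂(hyp m) = ∫ p in SD m, ((hgt p ^ (m + 2))⁻¹ : ℝ) • f p := by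
  unfold hyp
  rw [integral_withDensity_eq_integral_toReal_smul green_measurable_weight
    (Filter.Eventually.of_forall fun _ => ENNReal.ofReal_lt_top)]
  refine setIntegral_congr_fun isOpen_SD.measurableSet fun p hp => ?_
  have hp' : (0 : ℝ) < hgt p := hp
  rw [ENNReal.toReal_ofReal (by positivity)]

theorem green_integrable_hyp {F : Type*} [NormedAddCommGroup F] [NormedSpace ℝ F] {f : Pt m → F}
    {K : Set (Pt m)} (hK : IsCompact K) (hKU : K ⊆ SD m) (hf : ContinuousOn f (SD m))
    (h0 : ∀ p, p ∉ K → f p = 0) : Integrable f (hyp m) := by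
  unfold hyp
  rw [integrable_withDensity_iff_integrable_smul' green_measurable_weight
    (Filter.Eventually.of_forall fun _ => ENNReal.ofReal_lt_top)]
  have hc : Continuous fun p : Pt m => ((hgt p ^ (m + 2))⁻¹ : ℝ) • f p := by
    refine green_continuous_of_SD hK.isClosed hKU ?_ fun p hp => by rw [h0 p hp, smul_zero]
    refine ContinuousOn.smul ?_ hf
    refine ContinuousOn.inv₀ (continuous_hgt.pow (m + 2)).continuousOn fun p hp => ?_
    have hp' : (0 : ℝ) < hgt p := hp
    positivity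
  have hi : Integrable (fun p : Pt m => ((hgt p ^ (m + 2))⁻¹ : ℝ) • f p) (volume.restrict (SD m)) :=
    (green_integrable_vol hK hc fun p hp => by rw [h0 p hp, smul_zero]).restrict
  refine (integrable_congr ?_).mpr hi
  rw [Filter.EventuallyEq, ae_restrict_iff' isOpen_SD.measurableSet]
  refine Filter.Eventually.of_forall fun p hp => ?_
  have hp' : (0 : ℝ) < hgt p := hp
  rw [ENNReal.toReal_ofReal (by positivity)]

/-! ## continuity of the partial derivatives -/

/-- coordinates as real linear maps -/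
noncomputable def green_pr (k : Fin m) : E m →L[ℝ] ℂ := (EuclideanSpace.proj (𝕜 := ℂ) k).restrictScalars ℝ

theorem green_contDiff_pr {n : WithTop ℕ∞} (k : Fin m) : ContDiff ℝ n fun p : Pt m => p.2 k :=
  (green_pr k).contDiff.comp contDiff_snd

/-- the horizontal vector fields -/
noncomputable def green_vX (k : Fin m) (p : Pt m) : Pt m := (-conj (p.2 k), ek k)
noncomputable def green_vY (k : Fin m) (p : Pt m) : Pt m := (-(Complex.I * conj (p.2 k)), Complex.I • ek k)

theorem green_XX_eq (k : Fin m) (f : Pt m → ℂ) (p : Pt m) : XX k f p = pd (green_vX k p) f p := rfl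
theorem green_YY_eq (k : Fin m) (f : Pt m → ℂ) (p : Pt m) : YY k f p = pd (green_vY k p) f p := rfl

theorem green_contDiff_vX {n : WithTop ℕ∞} (k : Fin m) : ContDiff ℝ n (green_vX k) :=
  ((Complex.conjCLE.contDiff.comp (green_contDiff_pr k)).neg).prodMk contDiff_const

theorem green_contDiff_vY {n : WithTop ℕ∞} (k : Fin m) : ContDiff ℝ n (green_vY k) :=
  ((contDiff_const.mul (Complex.conjCLE.contDiff.comp (green_contDiff_pr k))).neg).prodMk contDiff_const

theorem green_continuousOn_pd (e : Pt m) {f : Pt m → ℂ} (hf : ContDiffOn ℝ 1 f (SD m)) :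
    ContinuousOn (pd e f) (SD m) := by
  have h := hf.continuousOn_fderiv_of_isOpen isOpen_SD le_rfl
  exact h.clm_apply continuousOn_const

theorem green_continuousOn_XX (k : Fin m) {f : Pt m → ℂ} (hf : ContDiffOn ℝ 1 f (SD m)) :
    ContinuousOn (XX k f) (SD m) := by
  have h := hf.continuousOn_fderiv_of_isOpen isOpen_SD le_rfl
  exact h.clm_apply (green_contDiff_vX (n := 0) k).continuous.continuousOn

theorem green_continuousOn_YY (k : Fin m) {f : Pt m → ℂ} (hf : ContDiffOn ℝ 1 f (SD m)) :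
    ContinuousOn (YY k f) (SD m) := by
  have h := hf.continuousOn_fderiv_of_isOpen isOpen_SD le_rfl
  exact h.clm_apply (green_contDiff_vY (n := 0) k).continuous.continuousOn

theorem green_contDiffOn_fd {f : Pt m → ℂ} (hf : ContDiffOn ℝ 2 f (SD m)) :
    ContDiffOn ℝ 1 (fderiv ℝ f) (SD m) := by
  refine hf.fderiv_of_isOpen isOpen_SD ?_
  norm_num

theorem green_contDiffOn_pd (e : Pt m) {f : Pt m → ℂ} (hf : ContDiffOn ℝ 2 f (SD m)) :
    ContDiffOn ℝ 1 (pd e f) (SD m) := (green_contDiffOn_fd hf).clm_apply contDiffOn_const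

theorem green_contDiffOn_XX (k : Fin m) {f : Pt m → ℂ} (hf : ContDiffOn ℝ 2 f (SD m)) :
    ContDiffOn ℝ 1 (XX k f) (SD m) := (green_contDiffOn_fd hf).clm_apply (green_contDiff_vX k).contDiffOn

theorem green_contDiffOn_YY (k : Fin m) {f : Pt m → ℂ} (hf : ContDiffOn ℝ 2 f (SD m)) :
    ContDiffOn ℝ 1 (YY k f) (SD m) := (green_contDiffOn_fd hf).clm_apply (green_contDiff_vY k).contDiffOn

theorem green_differentiableAt_of {f : Pt m → ℂ} (hf : ContDiffOn ℝ 1 f (SD m)) {p : Pt m} (hp : p ∈ SD m) :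
    DifferentiableAt ℝ f p :=
  (hf.contDiffAt (isOpen_SD.mem_nhds hp)).differentiableAt one_ne_zero

/-! ## Green's formula -/

theorem green_pd_zero_off (e : Pt m) {φ : Pt m → ℂ} {p : Pt m} (hp : p ∉ tsupport φ) : pd e φ p = 0 := by
  unfold pd
  have : fderiv ℝ φ p = 0 := by
    by_contra hne
    exact hp (tsupport_fderiv_subset ℝ (subset_tsupport _ hne))
  rw [this]; rfl

theorem green_continuous_pd {φ : Pt m → ℂ} (hφ : ContDiff ℝ 1 φ) (e : Pt m) : Continuous (pd e φ) := by
  have := hφ.continuous_fderiv one_ne_zero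
  exact this.clm_apply continuous_const

theorem green_continuous_XX (k : Fin m) {φ : Pt m → ℂ} (hφ : ContDiff ℝ 1 φ) : Continuous (XX k φ) := by
  have := hφ.continuous_fderiv one_ne_zero
  exact this.clm_apply (green_contDiff_vX (n := 0) k).continuous

theorem green_continuous_YY (k : Fin m) {φ : Pt m → ℂ} (hφ : ContDiff ℝ 1 φ) : Continuous (YY k φ) := by
  have := hφ.continuous_fderiv one_ne_zero
  exact this.clm_apply (green_contDiff_vY (n := 0) k).continuous

/-- integrability of functions supported in the support of a test function -/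
theorem green_integrable_SD {φ : Pt m → ℂ} (hc : HasCompactSupport φ) (hs : tsupport φ ⊆ SD m)
    {f : Pt m → ℂ} (hf : ContinuousOn f (SD m)) (h0 : ∀ p, p ∉ tsupport φ → f p = 0) :
    Integrable f (volume.restrict (SD m)) :=
  (green_integrable_vol hc (green_continuous_of_SD hc.isClosed hs hf h0) h0).restrict

theorem green_integrable_SDm {φ : Pt m → ℂ} (hc : HasCompactSupport φ) (hs : tsupport φ ⊆ SD m)
    {f g : Pt m → ℂ} (hf : ContinuousOn f (SD m)) (hg : ContinuousOn g (SD m))
    (h0 : ∀ p, p ∉ tsupport φ → g p = 0) :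
    Integrable (fun p => f p * g p) (volume.restrict (SD m)) :=
  green_integrable_SD hc hs (hf.mul hg) fun p hp => by
    rw [h0 p hp, mul_zero]

/-- integration by parts against a test function -/
theorem green_ibp {w φ : Pt m → ℂ} (hw : ContDiffOn ℝ 1 w (SD m)) (hφ : ContDiff ℝ 1 φ)
    (hc : HasCompactSupport φ) (hs : tsupport φ ⊆ SD m) (e : Pt m) :
    ∫ p in SD m, w p * pd e φ p = - ∫ p in SD m, pd e w p * φ p := by
  have := green_isHaar (m := m)
  have h0 : ∀ p, p ∉ tsupport φ → φ p = 0 := fun p hp => image_eq_zero_of_notMem_tsupport hp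
  have h1 : ∀ p, p ∉ tsupport φ → pd e φ p = 0 := fun p hp => green_pd_zero_off e hp
  have hφ' : Continuous (pd e φ) := green_continuous_pd hφ e
  have c1 : Continuous fun p => w p * pd e φ p :=
    green_continuous_of_SD hc.isClosed hs (hw.continuousOn.mul hφ'.continuousOn)
      fun p hp => by rw [h1 p hp, mul_zero]
  have c2 : Continuous fun p => pd e w p * φ p :=
    green_continuous_of_SD hc.isClosed hs ((green_continuousOn_pd e hw).mul hφ.continuous.continuousOn)
      fun p hp => by rw [h0 p hp, mul_zero]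
  have c3 : Continuous fun p => w p * φ p :=
    green_continuous_of_SD hc.isClosed hs (hw.continuousOn.mul hφ.continuous.continuousOn)
      fun p hp => by rw [h0 p hp, mul_zero]
  have key := integral_bilinear_hasLineDerivAt_right_eq_neg_left_of_integrable
    (μ := (volume : Measure (Pt m))) (f := w) (f' := pd e w) (g := φ) (g' := pd e φ) (v := e)
    (B := ContinuousLinearMap.mul ℝ ℂ)
    (by simpa using green_integrable_vol hc c2 fun p hp => by rw [h0 p hp, mul_zero])
    (by simpa using green_integrable_vol hc c1 fun p hp => by rw [h1 p hp, mul_zero])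
    (by simpa using green_integrable_vol hc c3 fun p hp => by rw [h0 p hp, mul_zero])
    (fun p hp => (green_differentiableAt_of hw (hs hp)).hasFDerivAt.hasLineDerivAt e)
    (fun p _ => (hφ.differentiable one_ne_zero p).hasFDerivAt.hasLineDerivAt e)
  simp only [ContinuousLinearMap.mul_apply'] at key
  have e1' : ∫ p in SD m, w p * pd e φ p = ∫ p, w p * pd e φ p := by
    refine setIntegral_eq_integral_of_forall_compl_eq_zero fun p hp => ?_
    rw [h1 p fun h => hp (hs h), mul_zero]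
  have e2' : ∫ p in SD m, pd e w p * φ p = ∫ p, pd e w p * φ p := by
    refine setIntegral_eq_integral_of_forall_compl_eq_zero fun p hp => ?_
    rw [h0 p fun h => hp (hs h), mul_zero]
  rw [e1', e2']
  exact key

theorem green_pd_mul (e : Pt m) {f h : Pt m → ℂ} {p : Pt m} (hf : DifferentiableAt ℝ f p)
    (hh : DifferentiableAt ℝ h p) :
    pd e (fun q => f q * h q) p = f p * pd e h p + h p * pd e f p := by
  unfold pd
  have h1 : fderiv ℝ (fun q => f q * h q) p = _ := (hf.hasFDerivAt.mul hh.hasFDerivAt).fderiv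
  rw [h1]
  simp [smul_eq_mul]

theorem green_pd_lin (a b : ℝ) (e e1 e2 : Pt m) (f : Pt m → ℂ) (p : Pt m) :
    pd (e + a • e1 + b • e2) f p = pd e f p + a * pd e1 f p + b * pd e2 f p := by
  unfold pd
  rw [map_add, map_add, map_smul, map_smul, Complex.real_smul, Complex.real_smul]

/-- the real and imaginary part of the second coordinate, as complex valued functions -/
noncomputable def green_re2 (k : Fin m) (p : Pt m) : ℂ := ((p.2 k).re : ℂ)
noncomputable def green_im2 (k : Fin m) (p : Pt m) : ℂ := ((p.2 k).im : ℂ)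

theorem green_contDiff_re2 {n : WithTop ℕ∞} (k : Fin m) : ContDiff ℝ n (green_re2 k) :=
  Complex.ofRealCLM.contDiff.comp (Complex.reCLM.contDiff.comp (green_contDiff_pr k))

theorem green_contDiff_im2 {n : WithTop ℕ∞} (k : Fin m) : ContDiff ℝ n (green_im2 k) :=
  Complex.ofRealCLM.contDiff.comp (Complex.imCLM.contDiff.comp (green_contDiff_pr k))

theorem green_pd_re2 (k : Fin m) (z : ℂ) (p : Pt m) : pd (z, 0) (green_re2 k) p = 0 := by
  have h : HasFDerivAt (green_re2 k) (((Complex.ofRealCLM.comp Complex.reCLM).comp (green_pr k)).comp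
    (ContinuousLinearMap.snd ℝ ℂ (E m))) p :=
    (((Complex.ofRealCLM.comp Complex.reCLM).comp (green_pr k)).comp (ContinuousLinearMap.snd ℝ ℂ (E m))).hasFDerivAt
  unfold pd
  rw [h.fderiv]
  simp

theorem green_pd_im2 (k : Fin m) (z : ℂ) (p : Pt m) : pd (z, 0) (green_im2 k) p = 0 := by
  have h : HasFDerivAt (green_im2 k) (((Complex.ofRealCLM.comp Complex.imCLM).comp (green_pr k)).comp
    (ContinuousLinearMap.snd ℝ ℂ (E m))) p :=
    (((Complex.ofRealCLM.comp Complex.imCLM).comp (green_pr k)).comp (ContinuousLinearMap.snd ℝ ℂ (E m))).hasFDerivAt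
  unfold pd
  rw [h.fderiv]
  simp

theorem green_XX_pd (k : Fin m) (f : Pt m → ℂ) (p : Pt m) :
    XX k f p = pd (0, ek k) f p + (-green_re2 k p) * pd (1, 0) f p + green_im2 k p * pd (Complex.I, 0) f p := by
  have h : green_vX k p = (0, ek k) + (-(p.2 k).re) • (1, 0) + (p.2 k).im • (Complex.I, 0) := by
    refine Prod.ext ?_ ?_
    · apply Complex.ext <;> simp [green_vX]
    · simp [green_vX]
  rw [green_XX_eq, h, green_pd_lin]
  simp [green_re2, green_im2]

theorem green_YY_pd (k : Fin m) (f : Pt m → ℂ) (p : Pt m) :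
    YY k f p = pd (0, Complex.I • ek k) f p + (-green_im2 k p) * pd (1, 0) f p +
      (-green_re2 k p) * pd (Complex.I, 0) f p := by
  have h : green_vY k p = (0, Complex.I • ek k) + (-(p.2 k).im) • (1, 0) + (-(p.2 k).re) • (Complex.I, 0) := by
    refine Prod.ext ?_ ?_
    · apply Complex.ext <;> simp [green_vY]
    · simp [green_vY]
  rw [green_YY_eq, h, green_pd_lin]
  simp [green_re2, green_im2]

theorem green_integral_add3 {f g h : Pt m → ℂ} {μ : Measure (Pt m)} (hf : Integrable f μ)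
    (hg : Integrable g μ) (hh : Integrable h μ) :
    (∫ p, f p ∂μ) + (∫ p, g p ∂μ) + (∫ p, h p ∂μ) = ∫ p, (f p + g p + h p) ∂μ := by
  have e1 : ∫ p, (f p + g p) ∂μ = (∫ p, f p ∂μ) + (∫ p, g p ∂μ) := integral_add hf hg
  have e2 : ∫ p, ((f p + g p) + h p) ∂μ = (∫ p, (f p + g p) ∂μ) + (∫ p, h p ∂μ) :=
    integral_add (hf.add hg) hh
  rw [e2, e1]

/-- integration by parts for a field `e + a (1,0) + b (i,0)` with coefficients which do not
depend on the first coordinate -/
theorem green_ibp_field {w φ : Pt m → ℂ} (hw : ContDiffOn ℝ 1 w (SD m)) (hφ : ContDiff ℝ 1 φ)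
    (hc : HasCompactSupport φ) (hs : tsupport φ ⊆ SD m) (e : Pt m) {a b : Pt m → ℂ}
    (ha : ContDiff ℝ 1 a) (hb : ContDiff ℝ 1 b) (ha0 : ∀ p, pd (1, 0) a p = 0)
    (hb0 : ∀ p, pd (Complex.I, 0) b p = 0) :
    ∫ p in SD m, w p * (pd e φ p + a p * pd (1, 0) φ p + b p * pd (Complex.I, 0) φ p) =
      - ∫ p in SD m, (pd e w p + a p * pd (1, 0) w p + b p * pd (Complex.I, 0) w p) * φ p := by
  have h0 : ∀ p, p ∉ tsupport φ → φ p = 0 := fun p hp => image_eq_zero_of_notMem_tsupport hp
  have haw : ContDiffOn ℝ 1 (fun p => a p * w p) (SD m) := ha.contDiffOn.mul hw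
  have hbw : ContDiffOn ℝ 1 (fun p => b p * w p) (SD m) := hb.contDiffOn.mul hw
  have k1 := green_ibp hw hφ hc hs e
  have k2 := green_ibp haw hφ hc hs (1, 0)
  have k3 := green_ibp hbw hφ hc hs (Complex.I, 0)
  have i1 : ∀ e' : Pt m, ∀ w' : Pt m → ℂ, ContDiffOn ℝ 1 w' (SD m) →
      Integrable (fun p => w' p * pd e' φ p) (volume.restrict (SD m)) := fun e' w' hw' =>
    green_integrable_SD hc hs (hw'.continuousOn.mul (green_continuous_pd hφ e').continuousOn) fun p hp => by
      rw [green_pd_zero_off e' hp, mul_zero]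
  have i2 : ∀ e' : Pt m, ∀ w' : Pt m → ℂ, ContDiffOn ℝ 1 w' (SD m) →
      Integrable (fun p => pd e' w' p * φ p) (volume.restrict (SD m)) := fun e' w' hw' =>
    green_integrable_SD hc hs ((green_continuousOn_pd e' hw').mul hφ.continuous.continuousOn)
      fun p hp => by rw [h0 p hp, mul_zero]
  have e1 : ∫ p in SD m, w p * (pd e φ p + a p * pd (1, 0) φ p + b p * pd (Complex.I, 0) φ p) =
      (∫ p in SD m, w p * pd e φ p) + (∫ p in SD m, (fun p => a p * w p) p * pd (1, 0) φ p) +
        ∫ p in SD m, (fun p => b p * w p) p * pd (Complex.I, 0) φ p := by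
    rw [green_integral_add3 (i1 _ _ hw) (i1 _ _ haw) (i1 _ _ hbw)]
    refine integral_congr_ae (Filter.Eventually.of_forall fun p => ?_)
    simp only
    ring
  have e2 : ∫ p in SD m, (pd e w p + a p * pd (1, 0) w p + b p * pd (Complex.I, 0) w p) * φ p =
      (∫ p in SD m, pd e w p * φ p) + (∫ p in SD m, pd (1, 0) (fun p => a p * w p) p * φ p) +
        ∫ p in SD m, pd (Complex.I, 0) (fun p => b p * w p) p * φ p := by
    rw [green_integral_add3 (i2 _ _ hw) (i2 _ _ haw) (i2 _ _ hbw)]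
    refine setIntegral_congr_fun isOpen_SD.measurableSet fun p hp => ?_
    have hwd := green_differentiableAt_of hw hp
    change (pd e w p + a p * pd (1, 0) w p + b p * pd (Complex.I, 0) w p) * φ p =
      pd e w p * φ p + pd (1, 0) (fun p => a p * w p) p * φ p +
        pd (Complex.I, 0) (fun p => b p * w p) p * φ p
    rw [green_pd_mul _ (ha.differentiable one_ne_zero p) hwd, ha0 p,
      green_pd_mul _ (hb.differentiable one_ne_zero p) hwd, hb0 p]
    ring
  rw [e1, e2, k1, k2, k3]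
  ring

theorem green_pd_neg (e : Pt m) (f : Pt m → ℂ) (p : Pt m) : pd e (fun p => -f p) p = - pd e f p := by
  unfold pd
  rw [fderiv_fun_neg]
  rfl

theorem green_ibp_XX (k : Fin m) {w φ : Pt m → ℂ} (hw : ContDiffOn ℝ 1 w (SD m)) (hφ : ContDiff ℝ 1 φ)
    (hc : HasCompactSupport φ) (hs : tsupport φ ⊆ SD m) :
    ∫ p in SD m, w p * XX k φ p = - ∫ p in SD m, XX k w p * φ p := by
  have h := green_ibp_field hw hφ hc hs (0, ek k) (a := fun p => -green_re2 k p) (b := green_im2 k)
    (green_contDiff_re2 k).neg (green_contDiff_im2 k) (fun p => by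
      rw [green_pd_neg, green_pd_re2, neg_zero]) (fun p => green_pd_im2 k _ p)
  simp only [green_XX_pd]
  exact h

theorem green_ibp_YY (k : Fin m) {w φ : Pt m → ℂ} (hw : ContDiffOn ℝ 1 w (SD m)) (hφ : ContDiff ℝ 1 φ)
    (hc : HasCompactSupport φ) (hs : tsupport φ ⊆ SD m) :
    ∫ p in SD m, w p * YY k φ p = - ∫ p in SD m, YY k w p * φ p := by
  have h := green_ibp_field hw hφ hc hs (0, Complex.I • ek k) (a := fun p => -green_im2 k p)
    (b := fun p => -green_re2 k p)
    (green_contDiff_im2 k).neg (green_contDiff_re2 k).neg (fun p => by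
      rw [green_pd_neg, green_pd_im2, neg_zero]) (fun p => by
      rw [green_pd_neg, green_pd_re2, neg_zero])
  simp only [green_YY_pd]
  exact h

/-! ## the height -/

theorem green_hasFDerivAt_hgt (p : Pt m) : HasFDerivAt (hgt : Pt m → ℝ)
    (-((2 : ℝ) • Complex.reCLM.comp (ContinuousLinearMap.fst ℝ ℂ (E m)) +
      (2 : ℝ) • (Complex.reCLM.comp ((innerSL ℂ p.2).restrictScalars ℝ)).comp (ContinuousLinearMap.snd ℝ ℂ (E m)))) p := by
  have h1 : HasFDerivAt (fun q : Pt m => 2 * q.1.re)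
      ((2 : ℝ) • Complex.reCLM.comp (ContinuousLinearMap.fst ℝ ℂ (E m))) p := by
    have := (Complex.reCLM.comp (ContinuousLinearMap.fst ℝ ℂ (E m))).hasFDerivAt (x := p)
    exact this.const_mul 2
  have h2 : HasFDerivAt (fun q : Pt m => ‖q.2‖ ^ 2)
      ((2 : ℝ) • (Complex.reCLM.comp ((innerSL ℂ p.2).restrictScalars ℝ)).comp (ContinuousLinearMap.snd ℝ ℂ (E m))) p := by
    have h3 : HasFDerivAt (fun q : Pt m => q.2) (ContinuousLinearMap.snd ℝ ℂ (E m)) p :=
      hasFDerivAt_snd
    have h4 := h3.norm_sq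
    refine h4.congr_fderiv (ContinuousLinearMap.ext fun e => ?_)
    have h5 : (inner ℝ p.2 e.2 : ℝ) = (inner ℂ p.2 e.2).re := by
      rw [PiLp.inner_apply, PiLp.inner_apply, Complex.re_sum]
      exact Finset.sum_congr rfl fun i _ => Complex.inner _ _
    simp only [smul_apply, ContinuousLinearMap.comp_apply, nsmul_eq_mul, smul_eq_mul,
      ContinuousLinearMap.coe_snd', innerSL_apply_apply, ContinuousLinearMap.coe_restrictScalars', Complex.reCLM_apply, h5]
    norm_num
  exact (h1.add h2).neg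

theorem green_fd_hgt (p e : Pt m) : fderiv ℝ hgt p e = -(2 * e.1.re + 2 * (inner ℂ p.2 e.2).re) := by
  rw [(green_hasFDerivAt_hgt p).fderiv]
  simp

theorem green_fd_hgt_one (p : Pt m) : fderiv ℝ hgt p (1, 0) = -2 := by
  rw [green_fd_hgt]; simp

theorem green_fd_hgt_I (p : Pt m) : fderiv ℝ hgt p (Complex.I, 0) = 0 := by
  rw [green_fd_hgt]; simp

theorem green_inner_ek (k : Fin m) (x : E m) : inner ℂ x (ek k) = conj (x k) := by
  unfold ek
  rw [EuclideanSpace.inner_single_right]
  simp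

theorem green_fd_hgt_X (k : Fin m) (p : Pt m) : fderiv ℝ hgt p (green_vX k p) = 0 := by
  rw [green_fd_hgt]; simp [green_vX, green_inner_ek]

theorem green_fd_hgt_Y (k : Fin m) (p : Pt m) : fderiv ℝ hgt p (green_vY k p) = 0 := by
  rw [green_fd_hgt]; simp [green_vY, green_inner_ek]

theorem green_pd_w (k : ℕ) (e : Pt m) {f : Pt m → ℂ} {p : Pt m} (hp : p ∈ SD m)
    (hf : DifferentiableAt ℝ f p) :
    pd e (fun q => ((hgt q ^ k)⁻¹ : ℝ) • f q) p = ((hgt p ^ k)⁻¹ : ℝ) • pd e f p +
      (-(k * (hgt p ^ (k + 1))⁻¹ * fderiv ℝ hgt p e) : ℝ) • f p := by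
  have hp' : (0 : ℝ) < hgt p := hp
  have h0 : HasDerivAt (fun t : ℝ => (t ^ k)⁻¹) (-(k * (hgt p ^ (k + 1))⁻¹)) (hgt p) := by
    have h := (hasDerivAt_pow k (hgt p)).inv (by positivity)
    refine h.congr_deriv ?_
    rcases k with _ | k
    · simp
    · simp only [Nat.add_sub_cancel]
      field_simp
      ring
  have hd : HasFDerivAt hgt (fderiv ℝ hgt p) p :=
    (green_contDiff_hgt.differentiable one_ne_zero p).hasFDerivAt
  have h1 : HasFDerivAt (fun q : Pt m => (hgt q ^ k)⁻¹)
      ((-(k * (hgt p ^ (k + 1))⁻¹) : ℝ) • fderiv ℝ hgt p) p := h0.comp_hasFDerivAt p hd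
  have h2 := hf.hasFDerivAt
  have h3 := h1.smul h2
  have h4 : fderiv ℝ (fun q => ((hgt q ^ k)⁻¹ : ℝ) • f q) p = _ := h3.fderiv
  unfold pd
  rw [h4]
  simp only [add_apply, smul_apply,
    ContinuousLinearMap.smulRight_apply, smul_eq_mul]
  rw [neg_mul]

theorem green_contDiffOn_inv_hgt (k : ℕ) : ContDiffOn ℝ 1 (fun p : Pt m => (hgt p ^ k)⁻¹) (SD m) :=
  (green_contDiff_hgt.pow k).contDiffOn.inv fun p hp => by
    have hp' : (0 : ℝ) < hgt p := hp
    positivity

theorem green_contDiffOn_w (k : ℕ) {f : Pt m → ℂ} (hf : ContDiffOn ℝ 1 f (SD m)) :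
    ContDiffOn ℝ 1 (fun q => ((hgt q ^ k)⁻¹ : ℝ) • f q) (SD m) := (green_contDiffOn_inv_hgt k).smul hf

theorem green_main {u : Pt m → ℂ} (hu : ContDiffOn ℝ 2 u (SD m)) (lam : ℂ)
    (heig : ∀ p ∈ SD m, lap u p = -lam * u p) : WeakEig lam u := by
  intro φ hφ hc hs
  have h0 : ∀ p, p ∉ tsupport φ → φ p = 0 := fun p hp => image_eq_zero_of_notMem_tsupport hp
  have c1 := green_contDiffOn_w m (green_contDiffOn_pd (1, 0) hu)
  have c2 := green_contDiffOn_w m (green_contDiffOn_pd (Complex.I, 0) hu)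
  have c3 := fun k => green_contDiffOn_w (m + 1) (green_contDiffOn_XX k hu)
  have c4 := fun k => green_contDiffOn_w (m + 1) (green_contDiffOn_YY k hu)
  have k1 := green_ibp c1 hφ hc hs (1, 0)
  have k2 := green_ibp c2 hφ hc hs (Complex.I, 0)
  have k3 := fun k => green_ibp_XX k (c3 k) hφ hc hs
  have k4 := fun k => green_ibp_YY k (c4 k) hφ hc hs
  have i1 := green_integrable_SDm hc hs c1.continuousOn (green_continuous_pd hφ (1, 0)).continuousOn
    fun p hp => green_pd_zero_off _ hp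
  have i2 := green_integrable_SDm hc hs c2.continuousOn
    (green_continuous_pd hφ (Complex.I, 0)).continuousOn fun p hp => green_pd_zero_off _ hp
  have i3 := fun k => green_integrable_SDm hc hs (c3 k).continuousOn (green_continuous_XX k hφ).continuousOn
    fun p hp => green_pd_zero_off _ hp
  have i4 := fun k => green_integrable_SDm hc hs (c4 k).continuousOn (green_continuous_YY k hφ).continuousOn
    fun p hp => green_pd_zero_off _ hp
  have j1 := green_integrable_SDm hc hs (green_continuousOn_pd (1, 0) c1) hφ.continuous.continuousOn h0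
  have j2 := green_integrable_SDm hc hs (green_continuousOn_pd (Complex.I, 0) c2)
    hφ.continuous.continuousOn h0
  have j3 := fun k => green_integrable_SDm hc hs (green_continuousOn_XX k (c3 k)) hφ.continuous.continuousOn h0
  have j4 := fun k => green_integrable_SDm hc hs (green_continuousOn_YY k (c4 k)) hφ.continuous.continuousOn h0
  have i34k : ∀ k : Fin m, Integrable (fun p => ((((hgt p ^ (m + 1))⁻¹ : ℝ) • XX k u p) * XX k φ p +
      (((hgt p ^ (m + 1))⁻¹ : ℝ) • YY k u p) * YY k φ p)) (volume.restrict (SD m)) := fun k => (i3 k).add (i4 k)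
  have j34k : ∀ k : Fin m, Integrable (fun p => (XX k (fun q => ((hgt q ^ (m + 1))⁻¹ : ℝ) • XX k u q) p * φ p +
      YY k (fun q => ((hgt q ^ (m + 1))⁻¹ : ℝ) • YY k u q) p * φ p)) (volume.restrict (SD m)) :=
    fun k => (j3 k).add (j4 k)
  have i34 : Integrable (fun p => ∑ k : Fin m, ((((hgt p ^ (m + 1))⁻¹ : ℝ) • XX k u p) * XX k φ p +
      (((hgt p ^ (m + 1))⁻¹ : ℝ) • YY k u p) * YY k φ p)) (volume.restrict (SD m)) :=
    integrable_finsetSum _ fun k _ => i34k k
  have j34 : Integrable (fun p => ∑ k : Fin m, (XX k (fun q => ((hgt q ^ (m + 1))⁻¹ : ℝ) • XX k u q) p * φ p +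
      YY k (fun q => ((hgt q ^ (m + 1))⁻¹ : ℝ) • YY k u q) p * φ p)) (volume.restrict (SD m)) :=
    integrable_finsetSum _ fun k _ => j34k k
  have s1 : ∫ p in SD m, ∑ k : Fin m, ((((hgt p ^ (m + 1))⁻¹ : ℝ) • XX k u p) * XX k φ p +
      (((hgt p ^ (m + 1))⁻¹ : ℝ) • YY k u p) * YY k φ p) =
      - ∫ p in SD m, ∑ k : Fin m, (XX k (fun q => ((hgt q ^ (m + 1))⁻¹ : ℝ) • XX k u q) p * φ p +
      YY k (fun q => ((hgt q ^ (m + 1))⁻¹ : ℝ) • YY k u q) p * φ p) := by
    rw [integral_finsetSum _ fun k _ => i34k k, integral_finsetSum _ fun k _ => j34k k,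
      ← Finset.sum_neg_distrib]
    refine Finset.sum_congr rfl fun k _ => ?_
    rw [integral_add (i3 k) (i4 k), integral_add (j3 k) (j4 k), k3 k, k4 k]
    ring
  rw [green_integral_hyp, green_integral_hyp, ← integral_const_mul]
  have hL : ∫ p in SD m, ((hgt p ^ (m + 2))⁻¹ : ℝ) • gdot u φ p =
      (∫ p in SD m, (((hgt p ^ m)⁻¹ : ℝ) • pd (1, 0) u p) * pd (1, 0) φ p) +
      (∫ p in SD m, (((hgt p ^ m)⁻¹ : ℝ) • pd (Complex.I, 0) u p) * pd (Complex.I, 0) φ p) +
      (∫ p in SD m, ∑ k : Fin m, ((((hgt p ^ (m + 1))⁻¹ : ℝ) • XX k u p) * XX k φ p +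
      (((hgt p ^ (m + 1))⁻¹ : ℝ) • YY k u p) * YY k φ p)) := by
    rw [green_integral_add3 i1 i2 i34]
    refine setIntegral_congr_fun isOpen_SD.measurableSet fun p hp => ?_
    have hp' : (0 : ℝ) < hgt p := hp
    have hne : (hgt p : ℂ) ≠ 0 := by exact_mod_cast hp'.ne'
    simp only [gdot, Complex.real_smul]
    have e1 : ∑ k : Fin m, ((((hgt p ^ (m + 1))⁻¹ : ℝ) : ℂ) * XX k u p * XX k φ p +
      (((hgt p ^ (m + 1))⁻¹ : ℝ) : ℂ) * YY k u p * YY k φ p) =
      (((hgt p ^ (m + 1))⁻¹ : ℝ) : ℂ) * ∑ k : Fin m, (XX k u p * XX k φ p + YY k u p * YY k φ p) := by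
      rw [Finset.mul_sum]
      refine Finset.sum_congr rfl fun k _ => ?_
      ring
    rw [e1]
    generalize ∑ k : Fin m, (XX k u p * XX k φ p + YY k u p * YY k φ p) = S
    push_cast
    field_simp
    ring
  have hR : ∫ p in SD m, lam * (((hgt p ^ (m + 2))⁻¹ : ℝ) • (u p * φ p)) =
      -((∫ p in SD m, pd (1, 0) (fun q => ((hgt q ^ m)⁻¹ : ℝ) • pd (1, 0) u q) p * φ p) +
      (∫ p in SD m, pd (Complex.I, 0)
        (fun q => ((hgt q ^ m)⁻¹ : ℝ) • pd (Complex.I, 0) u q) p * φ p) +
      (∫ p in SD m, ∑ k : Fin m, (XX k (fun q => ((hgt q ^ (m + 1))⁻¹ : ℝ) • XX k u q) p * φ p +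
      YY k (fun q => ((hgt q ^ (m + 1))⁻¹ : ℝ) • YY k u q) p * φ p))) := by
    rw [green_integral_add3 j1 j2 j34, ← integral_neg]
    refine setIntegral_congr_fun isOpen_SD.measurableSet fun p hp => ?_
    have hp' : (0 : ℝ) < hgt p := hp
    have hne : (hgt p : ℂ) ≠ 0 := by exact_mod_cast hp'.ne'
    have hE := heig p hp
    change lam * (((hgt p ^ (m + 2))⁻¹ : ℝ) • (u p * φ p)) =
      -(pd (1, 0) (fun q => ((hgt q ^ m)⁻¹ : ℝ) • pd (1, 0) u q) p * φ p +
        pd (Complex.I, 0) (fun q => ((hgt q ^ m)⁻¹ : ℝ) • pd (Complex.I, 0) u q) p * φ p +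
        ∑ k : Fin m, (XX k (fun q => ((hgt q ^ (m + 1))⁻¹ : ℝ) • XX k u q) p * φ p +
        YY k (fun q => ((hgt q ^ (m + 1))⁻¹ : ℝ) • YY k u q) p * φ p))
    have hX : ∀ k : Fin m, XX k (fun q => ((hgt q ^ (m + 1))⁻¹ : ℝ) • XX k u q) p =
        (((hgt p ^ (m + 1))⁻¹ : ℝ) : ℂ) * XX k (XX k u) p := by
      intro k
      rw [green_XX_eq k (fun q => ((hgt q ^ (m + 1))⁻¹ : ℝ) • XX k u q),
        green_pd_w (m + 1) _ hp (green_differentiableAt_of (green_contDiffOn_XX k hu) hp), green_fd_hgt_X,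
        ← green_XX_eq, Complex.real_smul, mul_zero, neg_zero, zero_smul, add_zero]
    have hY : ∀ k : Fin m, YY k (fun q => ((hgt q ^ (m + 1))⁻¹ : ℝ) • YY k u q) p =
        (((hgt p ^ (m + 1))⁻¹ : ℝ) : ℂ) * YY k (YY k u) p := by
      intro k
      rw [green_YY_eq k (fun q => ((hgt q ^ (m + 1))⁻¹ : ℝ) • YY k u q),
        green_pd_w (m + 1) _ hp (green_differentiableAt_of (green_contDiffOn_YY k hu) hp), green_fd_hgt_Y,
        ← green_YY_eq, Complex.real_smul, mul_zero, neg_zero, zero_smul, add_zero]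
    have e1 : ∑ k : Fin m, (XX k (fun q => ((hgt q ^ (m + 1))⁻¹ : ℝ) • XX k u q) p * φ p +
        YY k (fun q => ((hgt q ^ (m + 1))⁻¹ : ℝ) • YY k u q) p * φ p) =
        (((hgt p ^ (m + 1))⁻¹ : ℝ) : ℂ) * (∑ k : Fin m, (XX k (XX k u) p + YY k (YY k u) p)) * φ p := by
      rw [Finset.mul_sum, Finset.sum_mul]
      refine Finset.sum_congr rfl fun k _ => ?_
      rw [hX, hY]
      ring
    rw [e1, green_pd_w m _ hp (green_differentiableAt_of (green_contDiffOn_pd (1, 0) hu) hp),
      green_pd_w m _ hp (green_differentiableAt_of (green_contDiffOn_pd (Complex.I, 0) hu) hp),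
      green_fd_hgt_one, green_fd_hgt_I]
    have hE' : lam * u p = -((hgt p : ℂ) ^ 2 * (pd (1, 0) (pd (1, 0) u) p +
        pd (Complex.I, 0) (pd (Complex.I, 0) u) p) + 2 * (m : ℂ) * (hgt p : ℂ) * pd (1, 0) u p +
        (hgt p : ℂ) * ∑ k : Fin m, (XX k (XX k u) p + YY k (YY k u) p)) := by
      unfold lap at hE
      linear_combination hE
    have h7 : lam * (((hgt p ^ (m + 2))⁻¹ : ℝ) • (u p * φ p)) =
        (((hgt p ^ (m + 2))⁻¹ : ℝ) : ℂ) * (lam * u p) * φ p := by
      rw [Complex.real_smul]; ring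
    rw [h7, hE']
    generalize ∑ k : Fin m, (XX k (XX k u) p + YY k (YY k u) p) = S
    simp only [Complex.real_smul]
    push_cast
    field_simp
    ring
  rw [hL, hR, k1, k2, s1]
  ring

/-- the module GREEN -/
theorem st_GREEN : ST_GREEN := fun _ _ hu lam heig => green_main hu lam heig

end Pool.Agent.Helper19.Un
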